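import Pool.Agent.Lib.MP_d24f8b_al.ACRing

set_option autoImplicit false

namespace Pool.Agent.Results.MP_d24f8b_al.EveryCharacteristic

open Pool.Agent.Lib.MP_d24f8b_al

/-- `N(R)`: the join, in the lattice of two-sided ideals, of all nilpotent two-sided ideals. -/
def nilJoin.{v} (R : Type v) [Ring R] : TwoSidedIdeal R :=
  sSup {I : TwoSidedIdeal R | ∃ n : ℕ, 1 ≤ n ∧ TwoSidedIdeal.asIdeal I ^ n = ⊥}

/-- `J(R)`: the intersection of all maximal left ideals. -/
def jacRad.{v} (R : Type v) [Ring R] : Ideal R :=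
  sInf {M : Ideal R | M.IsMaximal}

/-- There is one finitely generated group `G` such that, for every field `K` of positive
characteristic, `K[G]` is a prime ring, the join of its nilpotent two-sided ideals is zero and is
strictly contained in the intersection of all maximal left ideals. -/
theorem result.{u} : ∃ (G : Type) (_ : Group G), Group.FG G ∧
    ∀ (K : Type u) [Field K] (p : ℕ) [CharP K p], p ≠ 0 →
      (∀ a b : MonoidAlgebra K G, (∀ x, a * x * b = 0) → a = 0 ∨ b = 0) ∧
      nilJoin (MonoidAlgebra K G) = ⊥ ∧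
      TwoSidedIdeal.asIdeal (nilJoin (MonoidAlgebra K G)) < jacRad (MonoidAlgebra K G) := by
  refine ⟨AC.H, inferInstance, inferInstance, fun K _ p _ hp => ?_⟩
  have hp' : p.Prime := (CharP.char_is_prime_or_zero K p).resolve_right hp
  have := Fact.mk hp'
  have h1 := AC.prime_of_icc (K := K) (Γ := AC.H) fun _ => AC.icc
  have h2 : nilJoin (MonoidAlgebra K AC.H) = ⊥ := by
    refine sSup_eq_bot.2 ?_
    rintro I ⟨n, -, hn⟩
    refine eq_bot_iff.2 fun x hx => ?_
    have h3 := TwoSidedIdeal.mem_asIdeal.2 hx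
    rw [AC.eq_bot_of_prime h1 _ n hn] at h3
    exact h3
  refine ⟨h1, h2, ?_⟩
  rw [h2, TwoSidedIdeal.bot_asIdeal, bot_lt_iff_ne_bot, Submodule.ne_bot_iff]
  exact ⟨_, H86.mem_jac (AC.nilpotent_mul (p := p)), AC.E_ne hp'.one_lt 0⟩

end Pool.Agent.Results.MP_d24f8b_al.EveryCharacteristic
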