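import Pool.Agent.FS.ResFinGA.Tor
import Pool.Agent.FS.ResFinGA.Gro
import Pool.Agent.FS.ResFinGA.Two

set_option autoImplicit false

namespace Pool.Agent.Results.MP_d24f8b_al.ResiduallyFinite

open Pool.Agent.Lib.MP_d24f8b_al Pool.Agent.FS.ResFinGA
open scoped Pointwise

/-- For every prime `p` there is a finitely generated, residually finite, periodic group `G` of
subexponential growth such that for every field `K` of characteristic `p` the ring `K[G]` is prime, the join of its nilpotent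
two-sided ideals is zero, it has a non-zero locally nilpotent two-sided ideal, and the
intersection of all maximal left ideals is non-zero. -/
theorem result.{u} (p : ℕ) (hp : p.Prime) : ∃ (G : Type) (_ : Group G), Group.FG G ∧
    Group.ResiduallyFinite G ∧ (∀ g : G, ∃ j : ℕ, g ^ (2 ^ j * p) = 1) ∧
    (∀ S : Set G, S.Finite → ∀ c : ℝ, 1 < c → ∃ C : ℝ, ∀ n : ℕ, ((S ^ n).ncard : ℝ) ≤ C * c ^ n) ∧
    ∀ (K : Type u) [Field K] [CharP K p],
      (∀ a b : MonoidAlgebra K G, (∀ x, a * x * b = 0) → a = 0 ∨ b = 0) ∧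
      sSup {I : TwoSidedIdeal (MonoidAlgebra K G) |
        ∃ n : ℕ, 1 ≤ n ∧ TwoSidedIdeal.asIdeal I ^ n = ⊥} = ⊥ ∧
      (∃ I : TwoSidedIdeal (MonoidAlgebra K G), I ≠ ⊥ ∧
        ∀ s : Set (MonoidAlgebra K G), s.Finite → s ⊆ I → ∃ n : ℕ,
          ∀ l : List (MonoidAlgebra K G), l.length = n → (∀ x ∈ l, x ∈ s) → l.prod = 0) ∧
      sInf {M : Ideal (MonoidAlgebra K G) | M.IsMaximal} ≠ ⊥ := by
  have := Fact.mk hp
  have := Fact.mk hp.one_lt
  refine ⟨H p, inferInstance, H_fg, resFin, periodic, growth, fun K _ _ => ?_⟩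
  have h1 := AC.prime_of_icc (K := K) (Γ := H p) fun _ => icc
  refine ⟨h1, sSup_eq_bot.2 ?_, ?_, ?_⟩
  · rintro I ⟨n, -, hn⟩
    refine eq_bot_iff.2 fun x hx => ?_
    have h3 := TwoSidedIdeal.mem_asIdeal.2 hx
    rw [AC.eq_bot_of_prime h1 _ n hn] at h3
    exact h3
  · obtain ⟨I, h2, h3⟩ := two_sided K (Ideal.span {E K p 0}) loc_nil
    refine ⟨I, fun h => E_ne (K := K) (p := p) 0 ?_, h3⟩
    have h4 := h2 _ (Ideal.subset_span rfl)
    rw [h] at h4
    exact h4
  · rw [Submodule.ne_bot_iff]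
    exact ⟨_, H86.mem_jac nilpotent_mul, E_ne 0⟩

end Pool.Agent.Results.MP_d24f8b_al.ResiduallyFinite
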